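import Pool.Agent.H471R4.BX.Stubs
import Pool.Agent.Helper924.MW.Lower

set_option autoImplicit false

/-! Project BX, task CNT. -/

namespace Pool.Agent.H471R4.BX

open Finset

open Pool.Agent.H379R2.W (Passes not_dvd_of_passes pow_of_passes_dvd)

theorem cnt (h1 : LSQ) (h2 : IDX) (h3 : STR) : CNT := by
  classical
  intro η ε hη hε
  obtain ⟨K, x1, hK⟩ := h1 η hη
  obtain ⟨L, x2, hL0, hL⟩ := h2 η hη
  obtain ⟨k, hk⟩ := exists_nat_gt (1 / ε)
  have hk0 : 0 < k := by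
    have h : (0 : ℝ) < k := lt_trans (by positivity) hk
    exact_mod_cast h
  obtain ⟨C, hC1, hC⟩ := Pool.Agent.Helper924.MW.Lower.exists_divisor_bound k hk0
  have hev : ∃ x3 : ℕ, ∀ x : ℕ, x3 ≤ x → (2 : ℝ) ≤ (x : ℝ) ^ η := by
    have := (tendsto_rpow_atTop hη).comp (tendsto_natCast_atTop_atTop (R := ℝ))
    obtain ⟨c, hc⟩ := Filter.eventually_atTop.mp (this.eventually (Filter.eventually_ge_atTop 2))
    exact ⟨c, hc⟩
  obtain ⟨x3, hx3⟩ := hev
  refine ⟨2 ^ (2 * K) * ((C * L : ℕ) : ℝ) ^ ε, max (max x1 x2) (max x3 1), fun x hx W hW => ?_⟩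
  have g1 : x1 ≤ x := ((le_max_left _ _).trans (le_max_left _ _)).trans hx
  have g2 : x2 ≤ x := ((le_max_right _ _).trans (le_max_left _ _)).trans hx
  have g3 : x3 ≤ x := ((le_max_left _ _).trans (le_max_right _ _)).trans hx
  have g4 : 1 ≤ x := ((le_max_right _ _).trans (le_max_right _ _)).trans hx
  obtain ⟨y, hy⟩ : ∃ y : ℕ, y = ⌊(x : ℝ) ^ η⌋₊ := ⟨_, rfl⟩
  have hy2 : 2 ≤ y := by rw [hy]; exact Nat.le_floor (by exact_mod_cast hx3 x g3)
  have hyle : (y : ℝ) ≤ (x : ℝ) ^ η := by rw [hy]; exact Nat.floor_le (by positivity)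
  have hly : ∀ l : ℕ, (l : ℝ) ≤ (x : ℝ) ^ η → l ≤ y := fun l hl => by rw [hy]; exact Nat.le_floor hl
  have hyl : ∀ l : ℕ, l ≤ y → (l : ℝ) ≤ (x : ℝ) ^ η := fun l hl =>
    le_trans (by exact_mod_cast hl) hyle
  obtain ⟨E, hE⟩ : ∃ E : Finset ℕ, E = (Icc 2 x).filter (fun N => Odd N ∧ Squarefree N ∧
    N.primeFactors.card ≤ 2 ∧ ∀ l : ℕ, l.Prime → (l : ℝ) ≤ (x : ℝ) ^ η → jacobiSym l N = 1) :=
    ⟨_, rfl⟩
  have hEK : E.card ≤ K := by
    refine hK x g1 E fun N hN => ?_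
    rw [hE, mem_filter, mem_Icc] at hN
    exact ⟨by omega, hN.1.2, hN.2.1, hN.2.2.1, hN.2.2.2.2⟩
  obtain ⟨T, hT⟩ : ∃ T : Finset ℕ, T = E.biUnion Nat.primeFactors := ⟨_, rfl⟩
  have hTK : T.card ≤ 2 * K := by
    rw [hT]
    refine (card_biUnion_le).trans ?_
    calc ∑ N ∈ E, N.primeFactors.card ≤ ∑ N ∈ E, 2 := sum_le_sum fun N hN => by
          rw [hE, mem_filter] at hN
          exact hN.2.2.2.1
      _ = E.card * 2 := by simp
      _ ≤ 2 * K := by omega
  -- the index set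
  obtain ⟨P, hP⟩ : ∃ P : Finset (Finset ℕ), P = T.powerset.filter
    (fun U => 2 ≤ ∏ q ∈ U, q ∧ ∏ q ∈ U, q ≤ x) := ⟨_, rfl⟩
  have hsub : W ⊆ P.biUnion (fun U => (L * ((∏ q ∈ U, q) - 1)).divisors.image
      (fun d => (d + 1) * ∏ q ∈ U, q)) := by
    intro n hn
    obtain ⟨hn2, hnx, hsq, hnp, hpass0⟩ := hW n hn
    have hpass : ∀ b : ℕ, 1 < b → b ≤ y → Passes n b := fun b hb1 hb2 => hpass0 b hb1 (hyl b hb2)
    have hbig : ∀ q : ℕ, q.Prime → q ∣ n → y < q := by
      intro q hq hqn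
      by_contra hcon
      exact not_dvd_of_passes hn2 hq hqn (hpass q hq.one_lt (by omega)) (dvd_refl q)
    have hle : ∀ q : ℕ, q ∣ n → q ≤ x := fun q hq => (Nat.le_of_dvd (by omega) hq).trans hnx
    obtain ⟨p, hpm, hUT, hUne⟩ := h3 n y T hn2 hy2 hsq hnp hpass
      (by
        intro q hq hqn hJ
        have hyq := hbig q hq hqn
        rw [hT, mem_biUnion]
        refine ⟨q, ?_, by rw [Nat.Prime.primeFactors hq]; simp⟩
        rw [hE, mem_filter, mem_Icc]
        refine ⟨⟨hq.two_le, hle q hqn⟩, hq.odd_of_ne_two (by omega), hq.prime.squarefree, ?_,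
          fun l hl hlx => hJ l hl (hly l hlx)⟩
        rw [Nat.Prime.primeFactors hq]; simp)
      (by
        intro q q' hq hq' hne hqn hqn' hJ
        have hyq := hbig q hq hqn
        have hyq' := hbig q' hq' hqn'
        have hcop : Nat.Coprime q q' := (Nat.coprime_primes hq hq').2 hne
        have hdvd : q * q' ∣ n := hcop.mul_dvd_of_dvd_of_dvd hqn hqn'
        rw [hT, mem_biUnion]
        refine ⟨q * q', ?_, ?_⟩
        · rw [hE, mem_filter, mem_Icc]
          refine ⟨⟨hq.two_le.trans (Nat.le_mul_of_pos_right _ hq'.pos), hle _ hdvd⟩,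
            (hq.odd_of_ne_two (by omega)).mul (hq'.odd_of_ne_two (by omega)),
            hsq.squarefree_of_dvd hdvd, ?_, fun l hl hlx => hJ l hl (hly l hlx)⟩
          rw [Nat.primeFactors_mul hq.ne_zero hq'.ne_zero, Nat.Prime.primeFactors hq,
            Nat.Prime.primeFactors hq']
          exact card_union_le _ _
        · rw [Nat.mem_primeFactors]
          exact ⟨hq, Nat.dvd_mul_right _ _, mul_ne_zero hq.ne_zero hq'.ne_zero⟩)
    have hp := Nat.prime_of_mem_primeFactors hpm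
    have hpn := Nat.dvd_of_mem_primeFactors hpm
    have hyp := hbig p hp hpn
    obtain ⟨m, hm⟩ : ∃ m : ℕ, m = ∏ q ∈ n.primeFactors.erase p, q := ⟨_, rfl⟩
    have hnm : p * m = n := by
      rw [hm, mul_prod_erase n.primeFactors (fun q => q) hpm]
      exact Nat.prod_primeFactors_of_squarefree hsq
    have hm2 : 2 ≤ m := by
      obtain ⟨q, hq⟩ := hUne
      have hqn : q.Prime := Nat.prime_of_mem_primeFactors (mem_of_mem_erase hq)
      have hqm : q ∣ m := by rw [hm]; exact dvd_prod_of_mem _ hq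
      have hm0 : 0 < m := by
        rcases Nat.eq_zero_or_pos m with h0 | h0
        · rw [h0, mul_zero] at hnm; omega
        · exact h0
      exact hqn.two_le.trans (Nat.le_of_dvd hm0 hqm)
    have hmx : m ≤ x := by
      refine le_trans ?_ hnx
      rw [← hnm]
      exact Nat.le_mul_of_pos_left _ hp.pos
    have hdvd : (p - 1) ∣ L * (n - 1) := by
      refine hL x g2 p hp (hle p hpn) ?_ (n - 1) ?_
      · have h5 : (x : ℝ) ^ η < (p : ℝ) := by
          rw [hy] at hyp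
          exact Nat.lt_of_floor_lt hyp
        exact h5.le
      · intro l hl hlx
        exact pow_of_passes_dvd (hpass l hl.one_lt (hly l hlx)) hpn
    have hdvd2 : (p - 1) ∣ L * (m - 1) := by
      have e1 : L * (n - 1) = (p - 1) * (L * m) + L * (m - 1) := by
        obtain ⟨p', rfl⟩ : ∃ p', p = p' + 1 := ⟨p - 1, by have := hp.pos; omega⟩
        obtain ⟨m', rfl⟩ : ∃ m', m = m' + 1 := ⟨m - 1, by omega⟩
        have e2 : n - 1 = p' * (m' + 1) + m' := by
          rw [← hnm]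
          have : (p' + 1) * (m' + 1) = p' * (m' + 1) + m' + 1 := by ring
          omega
        rw [e2]
        simp only [Nat.add_sub_cancel]
        ring
      rw [e1] at hdvd
      exact (Nat.dvd_add_right (Dvd.intro _ rfl)).mp hdvd
    rw [mem_biUnion]
    refine ⟨n.primeFactors.erase p, ?_, ?_⟩
    · rw [hP, mem_filter, mem_powerset, ← hm]
      exact ⟨hUT, hm2, hmx⟩
    · rw [mem_image, ← hm]
      refine ⟨p - 1, ?_, ?_⟩
      · rw [Nat.mem_divisors]
        refine ⟨hdvd2, mul_ne_zero hL0.ne' (by omega)⟩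
      · rw [Nat.sub_add_cancel hp.pos]; exact hnm
  -- the count
  have hdiv : ∀ U ∈ P, (((L * ((∏ q ∈ U, q) - 1)).divisors.image
      (fun d => (d + 1) * ∏ q ∈ U, q)).card : ℝ) ≤ ((C * L : ℕ) : ℝ) ^ ε * (x : ℝ) ^ ε := by
    intro U hU
    rw [hP, mem_filter] at hU
    obtain ⟨-, hU2, hUx⟩ := hU
    have h4 : ((L * ((∏ q ∈ U, q) - 1)).divisors.image
      (fun d => (d + 1) * ∏ q ∈ U, q)).card ≤ (L * ((∏ q ∈ U, q) - 1)).divisors.card :=
      card_image_le
    have hM0 : L * ((∏ q ∈ U, q) - 1) ≠ 0 := mul_ne_zero hL0.ne' (by omega)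
    have h5 := hC _ hM0
    have h6 : ((L * ((∏ q ∈ U, q) - 1)).divisors.card) ^ k ≤ C * L * x := by
      refine h5.trans ?_
      rw [mul_assoc C L x]
      exact Nat.mul_le_mul_left _ (Nat.mul_le_mul_left _ (by omega))
    have h7 : (((L * ((∏ q ∈ U, q) - 1)).divisors.card : ℝ)) ^ k ≤ ((C * L : ℕ) : ℝ) * x := by
      exact_mod_cast h6
    have hA1 : (1 : ℝ) ≤ ((C * L : ℕ) : ℝ) * x := by
      have : 1 ≤ C * L * x := Nat.one_le_iff_ne_zero.mpr (by positivity)
      exact_mod_cast this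
    have h8 : ((L * ((∏ q ∈ U, q) - 1)).divisors.card : ℝ) ≤
        (((C * L : ℕ) : ℝ) * x) ^ (1 / (k : ℝ)) := by
      have h9 := Real.rpow_le_rpow (by positivity) h7 (by positivity : 0 ≤ 1 / (k : ℝ))
      rw [one_div, Real.pow_rpow_inv_natCast (by positivity) hk0.ne'] at h9
      rwa [one_div]
    have h10 : (((C * L : ℕ) : ℝ) * x) ^ (1 / (k : ℝ)) ≤ (((C * L : ℕ) : ℝ) * x) ^ ε := by
      apply Real.rpow_le_rpow_of_exponent_le hA1
      rw [div_le_iff₀ (by exact_mod_cast hk0)]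
      rw [div_lt_iff₀ hε] at hk
      linarith
    rw [Real.mul_rpow (z := ε) (by positivity) (by positivity)] at h10
    calc _ ≤ ((L * ((∏ q ∈ U, q) - 1)).divisors.card : ℝ) := by exact_mod_cast h4
      _ ≤ _ := h8.trans h10
  have hPc : (P.card : ℝ) ≤ 2 ^ (2 * K) := by
    have h11 : P.card ≤ 2 ^ (2 * K) := by
      rw [hP]
      refine (card_filter_le _ _).trans ?_
      rw [card_powerset]
      exact Nat.pow_le_pow_right (by norm_num) hTK
    exact_mod_cast h11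
  calc (W.card : ℝ) ≤ ((P.biUnion (fun U => (L * ((∏ q ∈ U, q) - 1)).divisors.image
      (fun d => (d + 1) * ∏ q ∈ U, q))).card : ℝ) := by exact_mod_cast card_le_card hsub
    _ ≤ ∑ U ∈ P, (((L * ((∏ q ∈ U, q) - 1)).divisors.image
      (fun d => (d + 1) * ∏ q ∈ U, q)).card : ℝ) := by exact_mod_cast card_biUnion_le
    _ ≤ ∑ U ∈ P, (((C * L : ℕ) : ℝ) ^ ε * (x : ℝ) ^ ε) := sum_le_sum hdiv
    _ = P.card * (((C * L : ℕ) : ℝ) ^ ε * (x : ℝ) ^ ε) := by rw [sum_const, nsmul_eq_mul]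
    _ ≤ 2 ^ (2 * K) * (((C * L : ℕ) : ℝ) ^ ε * (x : ℝ) ^ ε) :=
        mul_le_mul_of_nonneg_right hPc (by positivity)
    _ = _ := by ring

end Pool.Agent.H471R4.BX
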