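import Pool.Agent.H471R4.BX.Stubs
import Pool.Agent.H379R2.W.JChar

set_option autoImplicit false

/-! Project BX, task LSQ: a bounded number of exceptional real moduli. -/

namespace Pool.Agent.H471R4.BX

open Finset

private theorem lsq_one (N : ℕ) : ∀ s : ℕ, 1 ≤ s →
    (∀ l : ℕ, l.Prime → l ∣ s → jacobiSym (l : ℤ) N = 1) → jacobiSym (s : ℤ) N = 1 := by
  intro s
  induction s using Nat.strong_induction_on with
  | _ s ih =>
    intro hs h
    rcases Nat.eq_or_lt_of_le hs with h1 | h1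
    · rw [← h1]
      simp
    · obtain ⟨t, ht⟩ := Nat.minFac_dvd s
      have hp : s.minFac.Prime := Nat.minFac_prime (by omega)
      have ht0 : 0 < t := by
        rcases Nat.eq_zero_or_pos t with h2 | h2
        · rw [h2, mul_zero] at ht
          omega
        · exact h2
      have hts : t < s := by
        have h3 := hp.two_le
        have h4 : 2 * t ≤ s.minFac * t := Nat.mul_le_mul_right t h3
        omega
      have h5 := ih t hts ht0 (fun l hl hlt => h l hl (hlt.trans ⟨s.minFac, by rw [mul_comm]; exact ht⟩))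
      have h6 := h s.minFac hp (Nat.minFac_dvd s)
      have h7 : (s : ℤ) = (s.minFac : ℤ) * (t : ℤ) := by exact_mod_cast ht
      rw [h7, jacobiSym.mul_left, h5, h6]
      norm_num

private theorem lsq_pv {x N N' D : ℕ} (hx : 1 ≤ x) (hN : 1 < N) (hNx : N ≤ x) (ho : Odd N)
    (hs : Squarefree N) (hN' : 1 < N') (hNx' : N' ≤ x) (ho' : Odd N') (hs' : Squarefree N')
    (hne : N ≠ N') :
    ((∑ s ∈ Icc 1 D, jacobiSym (s : ℤ) (N * N') : ℤ) : ℝ) ≤
      2 * (x : ℝ) ^ 3 * (1 + 2 * Real.log x) := by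
  have hx' : (1 : ℝ) ≤ x := by exact_mod_cast hx
  have hM1 : 1 ≤ N * N' := Nat.mul_pos (by omega) (by omega)
  have h1 := Pool.Agent.H379R2.W.jacobi_sum_le (N * N') hM1
    (Pool.Agent.H379R2.W.exists_neg_one hs hs' ho ho' hne) D
  have hMx : N * N' ≤ x ^ 2 := by
    rw [sq]
    exact Nat.mul_le_mul hNx hNx'
  have hMx' : ((N * N' : ℕ) : ℝ) ≤ (x : ℝ) ^ 2 := by exact_mod_cast hMx
  have hM1' : (1 : ℝ) ≤ ((N * N' : ℕ) : ℝ) := by exact_mod_cast hM1
  have h2 : (((N * N').divisors.card : ℕ) : ℝ) ≤ (x : ℝ) ^ 2 := by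
    have h3 : (N * N').divisors.card ≤ N * N' := Nat.card_divisors_le_self _
    exact le_trans (by exact_mod_cast h3) hMx'
  have h4 : Real.sqrt ((N * N' : ℕ) : ℝ) ≤ x := by
    rw [Real.sqrt_le_left (by linarith)]
    exact hMx'
  have h5 : Real.log ((N * N' : ℕ) : ℝ) ≤ 2 * Real.log x := by
    calc Real.log ((N * N' : ℕ) : ℝ) ≤ Real.log ((x : ℝ) ^ 2) :=
          Real.log_le_log (by linarith) hMx'
      _ = 2 * Real.log x := by
          rw [Real.log_pow]
          norm_num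
  have h6 : 0 ≤ Real.log ((N * N' : ℕ) : ℝ) := Real.log_nonneg hM1'
  have h7 : 0 ≤ Real.log x := Real.log_nonneg hx'
  refine (le_abs_self _).trans (h1.trans ?_)
  calc (((N * N').divisors.card : ℕ) : ℝ) * (2 * Real.sqrt ((N * N' : ℕ) : ℝ) *
        (1 + Real.log ((N * N' : ℕ) : ℝ))) ≤
      (x : ℝ) ^ 2 * (2 * (x : ℝ) * (1 + 2 * Real.log x)) := by
        apply mul_le_mul h2 _ (by positivity) (by positivity)
        apply mul_le_mul _ (by linarith) (by linarith) (by positivity)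
        linarith
    _ = 2 * (x : ℝ) ^ 3 * (1 + 2 * Real.log x) := by ring

theorem lsq (h : Pool.Agent.H471R4.BW.SMO) : LSQ := by
  classical
  intro η hη
  obtain ⟨c, hc, D0, hD0⟩ := h (min (η / 4) 1) (lt_min (by positivity) one_pos) (min_le_right _ _)
  refine ⟨⌈2 / c⌉₊, max D0 (⌈400 / c ^ 2⌉₊ + 1), ?_⟩
  intro x hx E hE
  have hxD : D0 ≤ x := (le_max_left _ _).trans hx
  have hxc : ⌈400 / c ^ 2⌉₊ + 1 ≤ x := (le_max_right _ _).trans hx
  have hx1 : 1 ≤ x := by omega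
  have hx1' : (1 : ℝ) ≤ x := by exact_mod_cast hx1
  have hxc' : 400 / c ^ 2 ≤ (x : ℝ) := by
    have h1 : (⌈400 / c ^ 2⌉₊ : ℝ) ≤ x := by exact_mod_cast (by omega : ⌈400 / c ^ 2⌉₊ ≤ x)
    exact (Nat.le_ceil _).trans h1
  obtain ⟨S, hS1, hS2⟩ := hD0 (x ^ 4) (hxD.trans (Nat.le_self_pow (by norm_num) x))
  have hJ1 : ∀ s ∈ S, ∀ N ∈ E, jacobiSym (s : ℤ) N = 1 := by
    intro s hs N hN
    obtain ⟨h1, -, h3⟩ := hS1 s hs
    refine lsq_one N s h1 fun l hl hls => (hE N hN).2.2.2.2 l hl ((h3 l hl hls).trans ?_)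
    push_cast
    rw [← Real.rpow_natCast, ← Real.rpow_mul (by linarith)]
    apply Real.rpow_le_rpow_of_exponent_le hx1'
    have := min_le_left (η / 4) 1
    push_cast
    linarith
  obtain ⟨B, hB⟩ : ∃ B : ℝ, B = 2 * (x : ℝ) ^ 3 * (1 + 2 * Real.log x) := ⟨_, rfl⟩
  have hB0 : 0 ≤ B := by
    rw [hB]
    have := Real.log_nonneg hx1'
    positivity
  -- the second moment
  have hlow : (S.card : ℝ) * (E.card : ℝ) ^ 2 ≤
      ∑ s ∈ Icc 1 (x ^ 4), (∑ N ∈ E, ((jacobiSym (s : ℤ) N : ℤ) : ℝ)) ^ 2 := by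
    have hsub : S ⊆ Icc 1 (x ^ 4) := by
      intro s hs
      obtain ⟨h1, h2, -⟩ := hS1 s hs
      rw [mem_Icc]
      omega
    calc (S.card : ℝ) * (E.card : ℝ) ^ 2 = ∑ s ∈ S, (E.card : ℝ) ^ 2 := by
          rw [sum_const, nsmul_eq_mul]
      _ = ∑ s ∈ S, (∑ N ∈ E, ((jacobiSym (s : ℤ) N : ℤ) : ℝ)) ^ 2 := by
          refine sum_congr rfl fun s hs => ?_
          have h1 : ∑ N ∈ E, ((jacobiSym (s : ℤ) N : ℤ) : ℝ) = E.card := by
            rw [sum_congr rfl (fun N hN => by rw [hJ1 s hs N hN])]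
            simp
          rw [h1]
      _ ≤ _ := sum_le_sum_of_subset_of_nonneg hsub fun s _ _ => sq_nonneg _
  have hup : ∑ s ∈ Icc 1 (x ^ 4), (∑ N ∈ E, ((jacobiSym (s : ℤ) N : ℤ) : ℝ)) ^ 2 ≤
      (E.card : ℝ) * (x : ℝ) ^ 4 + (E.card : ℝ) ^ 2 * B := by
    have h1 : ∀ s : ℕ, (∑ N ∈ E, ((jacobiSym (s : ℤ) N : ℤ) : ℝ)) ^ 2 =
        ∑ N ∈ E, ∑ N' ∈ E, ((jacobiSym (s : ℤ) (N * N') : ℤ) : ℝ) := by
      intro s
      rw [sq, sum_mul_sum]
      refine sum_congr rfl fun N hN => sum_congr rfl fun N' hN' => ?_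
      have hn : NeZero N := ⟨by have := (hE N hN).1; omega⟩
      have hn' : NeZero N' := ⟨by have := (hE N' hN').1; omega⟩
      rw [jacobiSym.mul_right]
      push_cast
      rfl
    rw [sum_congr rfl (fun s _ => h1 s), sum_comm]
    have h2 : ∀ N ∈ E, ∑ s ∈ Icc 1 (x ^ 4), ∑ N' ∈ E,
        ((jacobiSym (s : ℤ) (N * N') : ℤ) : ℝ) ≤
        ∑ N' ∈ E, ((if N = N' then (x : ℝ) ^ 4 else 0) + B) := by
      intro N hN
      rw [sum_comm]
      refine sum_le_sum fun N' hN' => ?_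
      by_cases hNN : N = N'
      · rw [if_pos hNN]
        have h3 : ∑ s ∈ Icc 1 (x ^ 4), ((jacobiSym (s : ℤ) (N * N') : ℤ) : ℝ) ≤
            ∑ s ∈ Icc 1 (x ^ 4), (1 : ℝ) := by
          refine sum_le_sum fun s _ => ?_
          have h4 := Pool.Agent.H379R2.W.jacobi_natAbs_le (s : ℤ) (N * N')
          have h5 : jacobiSym (s : ℤ) (N * N') ≤ 1 := (le_abs_self _).trans h4
          exact_mod_cast h5
        rw [sum_const, Nat.card_Icc, Nat.add_sub_cancel, nsmul_eq_mul] at h3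
        push_cast at h3
        linarith
      · rw [if_neg hNN]
        obtain ⟨a1, a2, a3, a4, -⟩ := hE N hN
        obtain ⟨b1, b2, b3, b4, -⟩ := hE N' hN'
        have h3 := lsq_pv (D := x ^ 4) hx1 a1 a2 a3 a4 b1 b2 b3 b4 hNN
        push_cast at h3
        rw [← hB] at h3
        linarith
    refine (sum_le_sum h2).trans (le_of_eq ?_)
    have h6 : ∀ N ∈ E, ∑ N' ∈ E, ((if N = N' then (x : ℝ) ^ 4 else 0) + B) =
        (x : ℝ) ^ 4 + E.card * B := by
      intro N hN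
      rw [sum_add_distrib, sum_ite_eq, if_pos hN, sum_const, nsmul_eq_mul]
    rw [sum_congr rfl h6, sum_const, nsmul_eq_mul]
    ring
  -- conclusion
  have hBle : B ≤ c / 2 * (x : ℝ) ^ 4 := by
    have hx0 : (0 : ℝ) < x := by linarith
    have hlog : Real.log x ≤ 2 * Real.sqrt x := by
      have h1 : Real.log x = 2 * Real.log (Real.sqrt x) := by
        rw [Real.log_sqrt hx0.le]
        ring
      rw [h1]
      have h2 := Real.log_le_sub_one_of_pos (Real.sqrt_pos.2 hx0)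
      linarith
    have hsq1 : 1 ≤ Real.sqrt x := Real.one_le_sqrt.2 hx1'
    have hsq2 : Real.sqrt x * Real.sqrt x = x := Real.mul_self_sqrt hx0.le
    have hsq3 : 20 / c ≤ Real.sqrt x := by
      rw [Real.le_sqrt (by positivity) hx0.le]
      have h44 : (20 / c) ^ 2 = 400 / c ^ 2 := by
        rw [div_pow]
        norm_num
      rw [h44]
      exact hxc'
    have h3 : 4 * (1 + 2 * Real.log x) ≤ c * x := by
      have h4 : 20 ≤ c * Real.sqrt x := by
        rw [div_le_iff₀ hc] at hsq3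
        linarith
      calc 4 * (1 + 2 * Real.log x) ≤ 20 * Real.sqrt x := by linarith
        _ ≤ c * Real.sqrt x * Real.sqrt x := by
            apply mul_le_mul_of_nonneg_right h4 (by linarith)
        _ = c * x := by rw [mul_assoc, hsq2]
    have h5 : 0 < (x : ℝ) ^ 3 := by positivity
    rw [hB]
    calc 2 * (x : ℝ) ^ 3 * (1 + 2 * Real.log x) =
        (x : ℝ) ^ 3 / 2 * (4 * (1 + 2 * Real.log x)) := by ring
      _ ≤ (x : ℝ) ^ 3 / 2 * (c * x) := by
          apply mul_le_mul_of_nonneg_left h3 (by positivity)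
      _ = c / 2 * (x : ℝ) ^ 4 := by ring
  have hx4 : 0 < (x : ℝ) ^ 4 := by positivity
  have hS2' : c * (x : ℝ) ^ 4 ≤ S.card := by
    push_cast at hS2
    exact hS2
  rcases Nat.eq_zero_or_pos E.card with h0 | h0
  · omega
  have hE0 : (0 : ℝ) < E.card := by exact_mod_cast h0
  have h7 : c * (x : ℝ) ^ 4 * (E.card : ℝ) ^ 2 ≤
      (E.card : ℝ) * (x : ℝ) ^ 4 + (E.card : ℝ) ^ 2 * (c / 2 * (x : ℝ) ^ 4) := by
    have h8 : c * (x : ℝ) ^ 4 * (E.card : ℝ) ^ 2 ≤ (S.card : ℝ) * (E.card : ℝ) ^ 2 :=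
      mul_le_mul_of_nonneg_right hS2' (by positivity)
    have h9 : (E.card : ℝ) ^ 2 * B ≤ (E.card : ℝ) ^ 2 * (c / 2 * (x : ℝ) ^ 4) :=
      mul_le_mul_of_nonneg_left hBle (by positivity)
    linarith
  have h10 : (E.card : ℝ) * (x : ℝ) ^ 4 * (c / 2 * E.card) ≤ (E.card : ℝ) * (x : ℝ) ^ 4 * 1 := by
    linarith
  have h11 : c / 2 * (E.card : ℝ) ≤ 1 := le_of_mul_le_mul_left h10 (by positivity)
  have h12 : (E.card : ℝ) ≤ 2 / c := by
    rw [le_div_iff₀ hc]
    linarith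
  exact_mod_cast h12.trans (Nat.le_ceil _)

end Pool.Agent.H471R4.BX
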