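import Pool.Agent.H471R4.BX.Stubs
import Pool.Agent.H379R2.W.Strong

set_option autoImplicit false

/-! Task STR: structure of the exceptional integers. -/

namespace Pool.Agent.H471R4.BX

open Finset

open Pool.Agent.H379R2.W

theorem str : STR := by
  intro n y T hn hy hsq hnp hpass hT1 hT2
  have hlt : ∀ q : ℕ, q.Prime → q ∣ n → y < q := by
    intro q hq hqn
    by_contra h
    push Not at h
    exact not_dvd_of_passes hn hq hqn (hpass q hq.one_lt h) (dvd_refl q)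
  have hne2 : ∀ q : ℕ, q.Prime → q ∣ n → q ≠ 2 := by
    intro q hq hqn h
    have := hlt q hq hqn
    omega
  have hsym : ∀ q : ℕ, q.Prime → q ∣ n → ∀ l : ℕ, l.Prime → l ≤ y →
      jacobiSym l q = 1 ∨ jacobiSym l q = -1 := by
    intro q hq hqn l hl hly
    apply jacobiSym.eq_one_or_neg_one
    have h1 : l < q := lt_of_le_of_lt hly (hlt q hq hqn)
    have h2 : Nat.Coprime l q := by
      rw [Nat.coprime_comm]
      exact (Nat.coprime_primes hq hl).2 (by omega)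
    simpa [Int.gcd_natCast_natCast] using h2
  have hmem : ∀ q, q ∈ n.primeFactors ↔ q.Prime ∧ q ∣ n := by
    intro q
    rw [Nat.mem_primeFactors]
    constructor
    · rintro ⟨h1, h2, _⟩; exact ⟨h1, h2⟩
    · rintro ⟨h1, h2⟩; exact ⟨h1, h2, by omega⟩
  -- two prime factors
  have htwo : ∀ p ∈ n.primeFactors, (n.primeFactors.erase p).Nonempty := by
    intro p hp
    obtain ⟨hp1, hp2⟩ := (hmem p).1 hp
    obtain ⟨m, hm⟩ := hp2
    have hm1 : m ≠ 1 := by
      intro h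
      rw [h, mul_one] at hm
      exact hnp (hm ▸ hp1)
    obtain ⟨r, hr, hrm⟩ := Nat.exists_prime_and_dvd hm1
    have hrn : r ∣ n := hm ▸ (hrm.trans (Dvd.intro_left p rfl))
    refine ⟨r, Finset.mem_erase.2 ⟨?_, (hmem r).2 ⟨hr, hrn⟩⟩⟩
    rintro rfl
    have h2 : r * r ∣ n := by
      rw [hm]; exact Nat.mul_dvd_mul_left r hrm
    exact hr.one_lt.ne' (Nat.isUnit_iff.1 (hsq r h2))
  have hne : n.primeFactors.Nonempty := by
    obtain ⟨r, hr, hrm⟩ := Nat.exists_prime_and_dvd (show n ≠ 1 by omega)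
    exact ⟨r, (hmem r).2 ⟨hr, hrm⟩⟩
  obtain ⟨p, hp, hmin⟩ := Finset.exists_min_image n.primeFactors v2 hne
  obtain ⟨hp1, hp2⟩ := (hmem p).1 hp
  refine ⟨p, hp, ?_, htwo p hp⟩
  intro q hq
  rw [Finset.mem_erase] at hq
  obtain ⟨hqp, hq⟩ := hq
  obtain ⟨hq1, hq2⟩ := (hmem q).1 hq
  rcases lt_or_eq_of_le (hmin q hq) with hv | hv
  · refine hT1 q hq1 hq2 (fun l hl hly => ?_)
    exact symbol_one (hpass l hl.one_lt hly) hq1 hp1 (hne2 q hq1 hq2) (hne2 p hp1 hp2) hq2 hp2 hv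
  · refine hT2 q p hq1 hp1 hqp hq2 hp2 (fun l hl hly => ?_)
    haveI : NeZero q := ⟨hq1.ne_zero⟩
    haveI : NeZero p := ⟨hp1.ne_zero⟩
    rw [jacobiSym.mul_right,
      same_symbol (hpass l hl.one_lt hly) hq1 hp1 (hne2 q hq1 hq2) (hne2 p hp1 hp2) hq2 hp2 hv.symm]
    rcases hsym p hp1 hp2 l hl hly with h | h <;> rw [h] <;> norm_num

end Pool.Agent.H471R4.BX
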